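import Pool.Agent.helper88.PF.Spec

set_option autoImplicit false

/-! # MP_0b485e_lc, row pf:DCR: the two criteria agree -/

namespace PF

theorem DCR_tb_div (n s j : ℕ) : tb (n / 2 ^ s) j ↔ tb n (s + j) := by
  unfold tb
  rw [Nat.div_div_eq_div_mul, ← pow_add]

theorem DCR_tb_zero (j : ℕ) : ¬ tb 0 j := by
  unfold tb
  simp

theorem DCR_tb_bit0 (c b : ℕ) (hb : b < 2) : tb (2 * c + b) 0 ↔ b = 1 := by
  unfold tb
  rw [pow_zero, Nat.div_one]
  omega

theorem DCR_tb_bit1 (c b j : ℕ) (hb : b < 2) : tb (2 * c + b) (j + 1) ↔ tb c j := by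
  unfold tb
  rw [pow_succ', ← Nat.div_div_eq_div_mul, show (2 * c + b) / 2 = c by omega]

/-- the digits of a number -/
theorem DCR_dig (b : ℕ) (hb : 1 ≤ b) (n : ℕ) : ∀ dig : ℕ → ℕ, (∀ i, dig i < b) →
    ∃ N < b ^ n, ∀ i < n, N / b ^ i % b = dig i := by
  induction n with
  | zero => intro dig _; exact ⟨0, by simp, fun i hi => absurd hi (by omega)⟩
  | succ n ih =>
    intro dig hdig
    obtain ⟨N, hN, hd⟩ := ih (fun i => dig (i + 1)) (fun i => hdig _)
    refine ⟨dig 0 + b * N, ?_, ?_⟩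
    · have h0 := hdig 0
      calc dig 0 + b * N < b + b * N := by omega
        _ = b * (N + 1) := by ring
        _ ≤ b * b ^ n := Nat.mul_le_mul_left _ hN
        _ = b ^ (n + 1) := by ring
    · intro i hi
      cases i with
      | zero =>
        rw [pow_zero, Nat.div_one, Nat.add_mul_mod_self_left, Nat.mod_eq_of_lt (hdig 0)]
      | succ i =>
        rw [pow_succ', ← Nat.div_div_eq_div_mul, Nat.add_mul_div_left _ _ (by omega),
          Nat.div_eq_of_lt (hdig 0), zero_add]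
        exact hd i (by omega)

/-- the string form of an equation -/
def DCR_sE (h : Tm × Tm) : List ℕ × List ℕ := (h.1.str, h.2.str)

/-- the string form of a clause -/
def DCR_sC (d : Cla) : SCla := (d.1.map DCR_sE, d.2.map DCR_sE)

/-- equations for strings -/
theorem DCR_eq (hDST : DST_stmt) (s : ℕ → Bool) (t : ℕ → Prop) (hst : ∀ i, s i = true ↔ t i)
    (h : Tm × Tm) : evS s (DCR_sE h).1 = evS s (DCR_sE h).2 ↔ eqAt t h := by
  have ht : t = fun i => s i = true := by
    funext i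
    exact propext (hst i).symm
  rw [ht]
  unfold eqAt DCR_sE
  rw [← hDST.1 h.1 s, ← hDST.1 h.2 s]
  exact Bool.eq_iff_iff

/-- the states agree -/
theorem DCR_stt (r M m ζn bn xn τn : ℕ) (ζ : ℕ → Prop) (b : List Prop) (x τ : ℕ → Prop)
    (hζ : ∀ i < r, tb ζn i ↔ ζ i) (hb : ∀ i < M, tb bn i ↔ b.getD i False)
    (hx : ∀ i, tb xn i ↔ x i) (hτ : ∀ i, tb τn i ↔ τ i) (i : ℕ) :
    sttN r M m ζn bn xn τn i = true ↔ stt r M m ζ b x τ i := by
  unfold sttN stt
  split_ifs with h1 h2 h3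
  · rw [decide_eq_true_iff]; exact hζ i h1
  · rw [decide_eq_true_iff]; exact hb _ (by omega)
  · rw [decide_eq_true_iff]; exact hx _
  · rw [decide_eq_true_iff]; exact hτ _

theorem DCR_get (cl : List Cla) (i : ℕ) (d : Cla) (h : cl[i]? = some d) :
    (cl.map DCR_sC).getD i ([], []) = DCR_sC d := by
  rw [List.getD_eq_getElem?_getD, List.getElem?_map, h]
  rfl

/-- the hypotheses of a clause agree -/
theorem DCR_hyp (hDST : DST_stmt) (s : ℕ → Bool) (t : ℕ → Prop) (hst : ∀ i, s i = true ↔ t i)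
    (d : Cla) : (∀ h ∈ (DCR_sC d).1, evS s h.1 = evS s h.2) ↔ ∀ h ∈ d.1, eqAt t h := by
  unfold DCR_sC
  constructor
  · intro H h hh
    exact (DCR_eq hDST s t hst h).1 (H _ (List.mem_map_of_mem hh))
  · intro H h hh
    obtain ⟨h', hh', rfl⟩ := List.mem_map.1 hh
    exact (DCR_eq hDST s t hst h').2 (H h' hh')

/-- the two versions of the first condition agree -/
theorem DCR_K (hDST : DST_stmt) (m M r : ℕ) (cl : List Cla) (J : ℕ → Prop) (Jn : ℕ)
    (hJ : ∀ i < cl.length, tb Jn i ↔ J i) (x : ℕ → Prop) (xn : ℕ) (hx : ∀ i, tb xn i ↔ x i) :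
    KJ m M r cl J x ↔ KN m M r (cl.map DCR_sC) Jn xn := by
  have hst : ∀ i j, sttN r M m (xn / 2 ^ (m + i * r)) 0 xn 0 j = true ↔
      stt r M m (fun j => x (m + i * r + j)) [] x (fun _ => False) j := by
    intro i j
    refine DCR_stt r M m _ _ _ _ _ _ _ _ ?_ ?_ hx ?_ j
    · intro l _
      rw [DCR_tb_div]
      exact hx _
    · intro l _
      simp [DCR_tb_zero]
    · intro l
      simp [DCR_tb_zero]
  constructor
  · intro H i hi hJi
    rw [List.length_map] at hi
    have hg : cl[i]? = some cl[i] := List.getElem?_eq_getElem hi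
    rw [DCR_get cl i _ hg]
    exact (DCR_hyp hDST _ _ (hst i) _).2 (H i _ hg ((hJ i hi).1 hJi))
  · intro H i d hd hJi
    obtain ⟨hi, -⟩ := List.getElem?_eq_some_iff.1 hd
    have h1 := H i (by rw [List.length_map]; exact hi) ((hJ i hi).2 hJi)
    rw [DCR_get cl i _ hd] at h1
    exact (DCR_hyp hDST _ _ (hst i) _).1 h1

/-- the two versions of the second condition agree -/
theorem DCR_T (hDST : DST_stmt) (hDEB : DEB_stmt) (m M r : ℕ) (cl : List Cla) (J : ℕ → Prop)
    (Jn : ℕ) (hJ : ∀ i < cl.length, tb Jn i ↔ J i) (lam : ℕ → ℕ) (lamn : ℕ)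
    (hlam : ∀ i d, cl[i]? = some d → d.2[lam i]? =
      d.2[lamn / (bas (cl.map DCR_sC)) ^ i % bas (cl.map DCR_sC)]?)
    (τ : ℕ → Prop) (τn : ℕ) (hτ : ∀ i, tb τn i ↔ τ i) (x : ℕ → Prop) (b : List Prop) (c : ℕ)
    (hx : ∀ i, tb (c / 2 ^ M) i ↔ x i) (hb : ∀ i < M, tb c i ↔ b.getD i False) :
    Th m M r cl J lam τ x b ↔ ThN m M r (cl.map DCR_sC) Jn lamn τn c := by
  have hst : ∀ (ζ : ℕ → Prop) (ζn : ℕ), (∀ i < r, tb ζn i ↔ ζ i) → ∀ j,
      sttN r M m ζn c (c / 2 ^ M) τn j = true ↔ stt r M m ζ b x τ j := by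
    intro ζ ζn hζ j
    exact DCR_stt r M m _ _ _ _ _ _ _ _ hζ hb hx hτ j
  have hcon : ∀ (ζ : ℕ → Prop) (ζn : ℕ), (∀ i < r, tb ζn i ↔ ζ i) → ∀ i d, cl[i]? = some d →
      ((∃ a, d.2[lam i]? = some a ∧ eqAt (stt r M m ζ b x τ) a) ↔
      (∃ a, (DCR_sC d).2[lamn / (bas (cl.map DCR_sC)) ^ i % bas (cl.map DCR_sC)]? = some a ∧
        evS (sttN r M m ζn c (c / 2 ^ M) τn) a.1 = evS (sttN r M m ζn c (c / 2 ^ M) τn) a.2)) := by
    intro ζ ζn hζ i d hd
    rw [hlam i d hd]
    unfold DCR_sC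
    dsimp only
    rw [List.getElem?_map]
    constructor
    · rintro ⟨a, ha, h2⟩
      refine ⟨DCR_sE a, ?_, (DCR_eq hDST _ _ (hst ζ ζn hζ) a).2 h2⟩
      rw [ha]
      rfl
    · rintro ⟨a, ha, h2⟩
      rw [Option.map_eq_some_iff] at ha
      obtain ⟨a', ha', rfl⟩ := ha
      exact ⟨a', ha', (DCR_eq hDST _ _ (hst ζ ζn hζ) a').1 h2⟩
  constructor
  · intro H i hi hJi ζn hζn hhyp
    rw [List.length_map] at hi
    have hg : cl[i]? = some cl[i] := List.getElem?_eq_getElem hi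
    rw [DCR_get cl i _ hg] at hhyp ⊢
    rw [← hcon (tb ζn) ζn (fun _ _ => Iff.rfl) i _ hg]
    exact H i _ hg ((hJ i hi).1 hJi) (tb ζn)
      ((DCR_hyp hDST _ _ (hst (tb ζn) ζn (fun _ _ => Iff.rfl)) _).1 hhyp)
  · intro H i d hd hJi ζ hhyp
    obtain ⟨hi, -⟩ := List.getElem?_eq_some_iff.1 hd
    obtain ⟨hE, hE2⟩ := hDEB r
    set ζn : ℕ := eb (fun i : Fin r => ζ i) with hζn
    have hζ : ∀ i < r, tb ζn i ↔ ζ i := by
      intro i hi
      rw [hζn, hE2]
      constructor
      · rintro ⟨_, h⟩; exact h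
      · intro h; exact ⟨hi, h⟩
    have h1 := H i (by rw [List.length_map]; exact hi) ((hJ i hi).2 hJi) ζn (hE.lt _)
    rw [DCR_get cl i _ hd] at h1
    rw [hcon ζ ζn hζ i d hd]
    exact h1 ((DCR_hyp hDST _ _ (hst ζ ζn hζ) _).2 hhyp)

/-- the number of a tuple contains the first variable and the bits of the other variables -/
theorem DCR_cN {α : Po} (e : α → ℕ) (q : List Bool) : ∀ γ : CT α q,
    cN e q γ / 2 ^ q.length = e (rdx q γ) ∧
    ∀ j < q.length, tb (cN e q γ) j ↔ (rdb q γ).getD j False := by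
  induction q with
  | nil =>
    intro γ
    exact ⟨by simp [cN, rdx], fun j hj => absurd hj (by simp)⟩
  | cons s q ih =>
    have key : ∀ (c b : ℕ) (x : α) (l : List Prop) (p : Prop), b < 2 → (b = 1 ↔ p) →
        (c / 2 ^ q.length = e x ∧ ∀ j < q.length, tb c j ↔ l.getD j False) →
        (2 * c + b) / 2 ^ (q.length + 1) = e x ∧
        ∀ j < q.length + 1, tb (2 * c + b) j ↔ (p :: l).getD j False := by
      intro c b x l p hb hp hc
      constructor
      · rw [pow_succ', ← Nat.div_div_eq_div_mul, show (2 * c + b) / 2 = c by omega]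
        exact hc.1
      · intro j hj
        cases j with
        | zero =>
          rw [DCR_tb_bit0 c b hb]
          simpa using hp
        | succ j =>
          rw [DCR_tb_bit1 c b j hb]
          simpa using hc.2 j (by omega)
    cases s with
    | true =>
      intro γ
      have := key (cN e q γ.1) (by classical exact if γ.2.2 then 1 else 0) (rdx q γ.1) (rdb q γ.1)
        γ.2.2 (by split_ifs <;> omega) (by split_ifs with h <;> simp [h]) (ih γ.1)
      exact this
    | false =>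
      intro γ
      have := key (cN e q γ.1) (by classical exact if γ.2.1 then 1 else 0) (rdx q γ.1) (rdb q γ.1)
        γ.2.1 (by split_ifs <;> omega) (by split_ifs with h <;> simp [h]) (ih γ.1)
      exact this

/-- the lattice with one element -/
theorem DCR_one : En Po.one 0 (fun _ => 0) := by
  refine ⟨fun _ => by norm_num, fun x y _ => rfl, fun n hn => ⟨(), by
    rw [pow_zero] at hn; omega⟩, fun x y => ⟨fun _ i hi => absurd hi (by omega), fun _ => trivial⟩⟩

/-- the basis is larger than the number of conclusions -/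
theorem DCR_bas (cl : List Cla) (i : ℕ) (d : Cla) (h : cl[i]? = some d) :
    d.2.length < bas (cl.map DCR_sC) := by
  unfold bas
  rw [List.map_map]
  have h1 : d ∈ cl := List.mem_of_getElem? h
  have h2 : d.2.length ∈ cl.map ((fun d : SCla => d.2.length) ∘ DCR_sC) := by
    rw [List.mem_map]
    exact ⟨d, h1, by simp [DCR_sC]⟩
  have := List.single_le_sum (l := cl.map ((fun d : SCla => d.2.length) ∘ DCR_sC))
    (fun _ _ => Nat.zero_le _) _ h2
  omega

theorem DCR (hDST : DST_stmt) (hDEB : DEB_stmt) (hDNU : DNU_stmt) : DCR_stmt := by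
  intro k m q r cl
  change (∃ τ : Po.bits k, CritT m q r cl (bx τ)) ↔ DecN k m q r (cl.map DCR_sC)
  -- the main equivalence
  have main : ∀ (τ : ℕ → Prop) (τn : ℕ), (∀ i, tb τn i ↔ τ i) → ∀ (J : ℕ → Prop) (Jn : ℕ),
      (∀ i < cl.length, tb Jn i ↔ J i) → ∀ (lam : ℕ → ℕ) (lamn : ℕ),
      (∀ i d, cl[i]? = some d → d.2[lam i]? =
        d.2[lamn / (bas (cl.map DCR_sC)) ^ i % bas (cl.map DCR_sC)]?) →
      (V (mkP (Po.bits (m + cl.length * r)) (fun x => KJ m q.length r cl J (bx x)) q) Po.one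
        (fun γ _ => Th m q.length r cl J lam τ (bx (rdx q γ)) (rdb q γ)) ↔
      VN (m + (cl.map DCR_sC).length * r) (KN m q.length r (cl.map DCR_sC) Jn) q 0
        (fun c _ => ThN m q.length r (cl.map DCR_sC) Jn lamn τn c)) := by
    intro τ τn hτ J Jn hJ lam lamn hlam
    obtain ⟨hE, hE2⟩ := hDEB (m + cl.length * r)
    rw [List.length_map]
    refine hDNU (Po.bits (m + cl.length * r)) (m + cl.length * r) eb _ _ q Po.one 0 (fun _ => 0)
      _ _ hE DCR_one ?_ ?_
    · intro x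
      exact DCR_K hDST m q.length r cl J Jn hJ (bx x) (eb x) (fun i => hE2 x i)
    · intro γ v
      obtain ⟨h1, h2⟩ := DCR_cN (α := Po.bits (m + cl.length * r)) eb q γ
      refine DCR_T hDST hDEB m q.length r cl J Jn hJ lam lamn hlam τ τn hτ _ _ _ ?_ h2
      intro i
      rw [h1]
      exact hE2 _ i
  have hbas : 1 ≤ bas (cl.map DCR_sC) := by unfold bas; omega
  constructor
  · rintro ⟨τ, hτ⟩
    obtain ⟨hE, hE2⟩ := hDEB k
    refine ⟨eb τ, hE.lt _, fun Jn hJn => ?_⟩
    obtain ⟨lam, hlam⟩ := hτ (tb Jn)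
    obtain ⟨lamn, hl1, hl2⟩ := DCR_dig (bas (cl.map DCR_sC)) hbas cl.length
      (fun i => min (lam i) (bas (cl.map DCR_sC) - 1)) (fun i => by
        have := min_le_right (lam i) (bas (cl.map DCR_sC) - 1)
        omega)
    refine ⟨lamn, by rw [List.length_map]; exact hl1, ?_⟩
    refine (main (bx τ) (eb τ) (fun i => hE2 τ i) (tb Jn) Jn (fun _ _ => Iff.rfl) lam lamn ?_).1 hlam
    intro i d hd
    obtain ⟨hi, -⟩ := List.getElem?_eq_some_iff.1 hd
    rw [hl2 i hi]
    have hb := DCR_bas cl i d hd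
    rcases le_total (lam i) (bas (cl.map DCR_sC) - 1) with h | h
    · rw [min_eq_left h]
    · rw [min_eq_right h, List.getElem?_eq_none (by omega), List.getElem?_eq_none (by omega)]
  · rintro ⟨τn, hτn, H⟩
    obtain ⟨hE, hE2⟩ := hDEB k
    obtain ⟨τ, hτ⟩ := hE.surj τn hτn
    refine ⟨τ, fun J => ?_⟩
    obtain ⟨hF, hF2⟩ := hDEB cl.length
    have hJ : ∀ i < cl.length, tb (eb (fun i : Fin cl.length => J i)) i ↔ J i := by
      intro i hi
      rw [hF2]
      constructor
      · rintro ⟨_, h⟩; exact h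
      · intro h; exact ⟨hi, h⟩
    obtain ⟨lamn, -, hlamn⟩ := H (eb (fun i : Fin cl.length => J i))
      (by rw [List.length_map]; exact hF.lt _)
    refine ⟨fun i => lamn / (bas (cl.map DCR_sC)) ^ i % bas (cl.map DCR_sC), ?_⟩
    refine (main (bx τ) τn (fun i => by rw [← hτ]; exact hE2 τ i) J _ hJ _ lamn ?_).2 hlamn
    intro i d _
    rfl

end PF
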